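import Mathlib

open MeasureTheory Set Real

namespace Pool.Agent.Results.MP_a4d326_an.Large

/-- The representative of `x` modulo `2π` in `[0, 2π)`. -/
noncomputable def md (x : ℝ) : ℝ := toIcoMod two_pi_pos 0 x

/-- The square of angle pairs. -/
def E : Set (ℝ × ℝ) := Ico 0 (2 * π) ×ˢ Ico 0 (2 * π)

/-- Pairs whose first time is strictly smaller than the second time. -/
def E1 (e : ℝ) : Set (ℝ × ℝ) :=
  {p | p ∈ E ∧ ∃ n : ℕ, 1 ≤ n ∧ md (n * p.1 - p.2) < e ∧
    ∀ m : ℕ, 1 ≤ m → m ≤ n → ¬ md (m * p.1 - m * p.2) < e}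

lemma md_eq (x y : ℝ) (k : ℤ) (h0 : 0 ≤ y) (h1 : y < 2 * π) (h : x = y + k * (2 * π)) :
    md x = y := by
  unfold md
  rw [toIcoMod_eq_iff]
  exact ⟨⟨h0, by linarith⟩, k, by rw [h, zsmul_eq_mul]⟩

lemma vol (C : Set ℝ) (hC : MeasurableSet C) (hs : C ⊆ Ico 0 (2 * π)) :
    volume {p : ℝ × ℝ | p ∈ E ∧ (p.1 - p.2 ∈ C ∨ p.1 + 2 * π - p.2 ∈ C)}
      = volume C * ENNReal.ofReal (2 * π) := by
  have hm : MeasurableSet {p : ℝ × ℝ | p ∈ E ∧ (p.1 - p.2 ∈ C ∨ p.1 + 2 * π - p.2 ∈ C)} :=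
    (measurableSet_Ico.prod measurableSet_Ico).inter
      (((measurable_fst.sub measurable_snd) hC).union
        (((measurable_fst.add_const _).sub measurable_snd) hC))
  rw [Measure.volume_eq_prod, Measure.prod_apply hm]
  have : ∀ a : ℝ, volume (Prod.mk a ⁻¹'
      {p : ℝ × ℝ | p ∈ E ∧ (p.1 - p.2 ∈ C ∨ p.1 + 2 * π - p.2 ∈ C)})
      = (Ico 0 (2 * π)).indicator (fun _ => volume C) a := by
    intro a
    by_cases ha : a ∈ Ico 0 (2 * π)
    · rw [indicator_of_mem ha]
      have e : Prod.mk a ⁻¹' {p : ℝ × ℝ | p ∈ E ∧ (p.1 - p.2 ∈ C ∨ p.1 + 2 * π - p.2 ∈ C)}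
          = (fun b => a - b) ⁻¹' (C ∩ Iic a) ∪ (fun b => a + 2 * π - b) ⁻¹' (C \ Iic a) := by
        ext b
        simp only [E, mem_preimage, mem_ofPred_eq, mem_prod, mem_Ico, mem_union, mem_inter_iff,
          mem_Iic, mem_sdiff, not_le]
        constructor
        · rintro ⟨⟨-, h1, h2⟩, h | h⟩
          · exact Or.inl ⟨h, by linarith⟩
          · exact Or.inr ⟨h, by linarith⟩
        · rintro (⟨h, h'⟩ | ⟨h, h'⟩)
          · exact ⟨⟨ha, by linarith, by linarith [(hs h).1, ha.2]⟩, Or.inl h⟩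
          · exact ⟨⟨ha, by linarith [(hs h).2, ha.1], by linarith⟩, Or.inr h⟩
      have m2 : MeasurableSet ((fun b => a + 2 * π - b) ⁻¹' (C \ Iic a)) :=
        (measurable_const.sub measurable_id) (hC.diff measurableSet_Iic)
      rw [e, measure_union _ m2,
        (Measure.measurePreserving_sub_left volume a).measure_preimage
          (hC.inter measurableSet_Iic).nullMeasurableSet,
        (Measure.measurePreserving_sub_left volume (a + 2 * π)).measure_preimage
          (hC.diff measurableSet_Iic).nullMeasurableSet,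
        measure_inter_add_diff _ measurableSet_Iic]
      rw [Set.disjoint_left]
      rintro b ⟨h1, -⟩ ⟨h2, -⟩
      have := (hs h1).1
      have := (hs h2).2
      simp only at *
      linarith
    · rw [indicator_of_notMem ha]
      have e : Prod.mk a ⁻¹' {p : ℝ × ℝ | p ∈ E ∧ (p.1 - p.2 ∈ C ∨ p.1 + 2 * π - p.2 ∈ C)} = ∅ :=
        eq_empty_of_forall_notMem fun b hb => ha hb.1.1
      rw [e, measure_empty]
  simp only [this]
  rw [lintegral_indicator_const measurableSet_Ico]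
  simp

theorem result (e : ℝ) (h0 : 2 * π / 3 < e) (_h1 : e < 2 * π) :
    volume (E1 e) < volume (E \ E1 e) := by
  have hp := pi_pos
  obtain ⟨d, hd1, hd2, hd3⟩ : ∃ d, 2 * π / 3 < d ∧ d ≤ π ∧ d ≤ e :=
    ⟨min e π, lt_min h0 (by linarith), min_le_right _ _, min_le_left _ _⟩
  obtain ⟨C, hCd⟩ : ∃ C : Set ℝ, C = Ico 0 d ∪ Ico π (π + d / 2) := ⟨_, rfl⟩
  have hC : MeasurableSet C := hCd ▸ measurableSet_Ico.union measurableSet_Ico
  have hs : C ⊆ Ico 0 (2 * π) := by
    rw [hCd]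
    rintro x (h | h)
    · exact ⟨h.1, by linarith [h.2]⟩
    · exact ⟨by linarith [h.1], by linarith [h.2]⟩
  have vC : volume C = ENNReal.ofReal (3 * d / 2) := by
    rw [hCd, measure_union (Set.disjoint_left.2 fun x h h' => by linarith [h.2, h'.1])
      measurableSet_Ico, Real.volume_Ico, Real.volume_Ico,
      ← ENNReal.ofReal_add (by linarith) (by linarith)]
    congr 1; ring
  obtain ⟨A, hA⟩ : ∃ A, A = {p : ℝ × ℝ | p ∈ E ∧ (p.1 - p.2 ∈ C ∨ p.1 + 2 * π - p.2 ∈ C)} :=
    ⟨_, rfl⟩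
  have vA : volume A = ENNReal.ofReal (3 * d / 2 * (2 * π)) := by
    rw [hA, vol C hC hs, vC, ← ENNReal.ofReal_mul (by linarith)]
  have mA : MeasurableSet A := hA ▸
    (measurableSet_Ico.prod measurableSet_Ico).inter
      (((measurable_fst.sub measurable_snd) hC).union
        (((measurable_fst.add_const _).sub measurable_snd) hC))
  have sA : A ⊆ E := by rw [hA]; exact fun p hp => hp.1
  have key : ∀ p ∈ A, p ∉ E1 e := by
    rintro p hpA ⟨-, n, hn, c1, c2⟩
    rw [hA] at hpA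
    obtain ⟨y, k, hy, hk⟩ : ∃ (y : ℝ) (k : ℤ), y ∈ C ∧ p.1 - p.2 = y + k * (2 * π) := by
      rcases hpA.2 with h | h
      · exact ⟨_, 0, h, by simp⟩
      · exact ⟨_, -1, h, by push_cast; ring⟩
    have n1 := c2 1 le_rfl hn
    rcases hn.eq_or_lt with rfl | hn2
    · exact n1 (by simpa using c1)
    · rw [hCd] at hy
      rcases hy with h | h
      · refine n1 ?_
        rw [md_eq _ y k h.1 (by linarith [h.2]) (by simpa using hk)]
        linarith [h.2]
      · refine c2 2 (by norm_num) hn2 ?_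
        rw [md_eq _ (2 * y - 2 * π) (2 * k + 1) (by linarith [h.1]) (by linarith [h.2])
          (by push_cast; linarith)]
        linarith [h.2]
  have vE : volume E = ENNReal.ofReal (2 * π * (2 * π)) := by
    rw [E, Measure.volume_eq_prod, Measure.prod_prod, Real.volume_Ico,
      ← ENNReal.ofReal_mul (by linarith)]
    simp
  calc volume (E1 e) ≤ volume (E \ A) := measure_mono fun p hp => ⟨hp.1, fun h => key p h hp⟩
    _ = ENNReal.ofReal (2 * π * (2 * π) - 3 * d / 2 * (2 * π)) := by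
        rw [measure_sdiff sA mA.nullMeasurableSet (by rw [vA]; exact ENNReal.ofReal_ne_top),
          vE, vA, ← ENNReal.ofReal_sub _ (by nlinarith)]
    _ < volume A := by
        rw [vA, ENNReal.ofReal_lt_ofReal_iff (by nlinarith)]
        nlinarith
    _ ≤ volume (E \ E1 e) := measure_mono fun p hp => ⟨sA hp, key p hp⟩

end Pool.Agent.Results.MP_a4d326_an.Large
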